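import Mathlib
import Pool.Agent.V11310.CL.Prime
import Pool.Agent.H932R3.Finals

set_option autoImplicit false

/-!
# Effective classes in the closure of the known classes under collisions have `h¹ = 0`

`Reached N0 d w` (`Pool.Agent.V11310.CL.Reached`): the multiset of the multiplicities `w` belongs, in
degree `d`, to the smallest class of multisets of multiplicities with one of the two signs (no curves,
independent conditions) which contains the comparable, the large and the good classes (`Base`) and is
closed under collisions (a point of multiplicity `μ` may be replaced by points `M'` if `M'` is in the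
class in degree `μ - 1`), quadratic transformations, doubling (four points of multiplicity `m` for one
point of the multiplicities `2 m` and `2 m + 1`), adding or removing points and changing the degree.

Let `(d; w)` be any class and let the points be general. If `(d; w)` is effective and reached, or
(`n ≥ 4`) finitely many reflections carry it to a standard class which is reached, then the conditions
are independent (`h¹ = 0`). If `n ≥ 4` and `|d H - ∑ w i E i|` contains an integral curve, then the
conditions are independent or finitely many quadratic transformations carry `(d; w)` to a special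
standard class of the same dimension which is not reached.
-/

namespace Pool.Agent.Results.MP_6ec8e4_ag.CollisionClosure

open Pool.Agent Pool.Agent.TH167.SHDefs Pool.Agent.V11310.CL
open Pool.Agent.Y536.SH (Standard)

/-- The homogeneous ideal of the fat points with support `(P i 0 : P i 1 : 1)` and multiplicity
`w i`: the intersection of the `w i`-th powers of the ideals of the points. -/
noncomputable def fat {n : ℕ} (P : Fin n → Fin 2 → ℂ) (w : Fin n → ℕ) :
    Ideal (MvPolynomial (Fin 3) ℂ) :=
  ⨅ i : Fin n,
    (Ideal.span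
      ({MvPolynomial.X 0 - MvPolynomial.C (P i 0) * MvPolynomial.X 2,
        MvPolynomial.X 1 - MvPolynomial.C (P i 1) * MvPolynomial.X 2} :
        Set (MvPolynomial (Fin 3) ℂ))) ^ (w i)

/-- The conditions are independent in degree `d`. -/
def Independent {n : ℕ} (P : Fin n → Fin 2 → ℂ) (d : ℕ) (w : Fin n → ℕ) : Prop :=
  Module.finrank ℂ
    ↥(MvPolynomial.homogeneousSubmodule (Fin 3) ℂ d ⊓
      Submodule.restrictScalars ℂ (fat P w))
    + ∑ i, Nat.choose (w i + 1) 2 = Nat.choose (d + 2) 2

/-- The property holds for all `n`-tuples of points outside some hypersurface. -/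
def ForGeneral {n : ℕ} (p : (Fin n → Fin 2 → ℂ) → Prop) : Prop :=
  ∃ F : MvPolynomial (Fin n × Fin 2) ℂ, F ≠ 0 ∧ ∀ P : Fin n → Fin 2 → ℂ,
    MvPolynomial.eval (fun ij : Fin n × Fin 2 => P ij.1 ij.2) F ≠ 0 → p P

theorem result : ∃ N0 : ℕ, ∀ (n d : ℕ) (w : Fin n → ℕ),
    (Base N0 d w → Reached N0 d w) ∧
    (Reached N0 d w ∨ (4 ≤ n ∧ Covered N0 d w) → ForGeneral fun P =>
      ∀ G : MvPolynomial (Fin 3) ℂ, G ≠ 0 → G.IsHomogeneous d → G ∈ fat P w →
        Independent P d w) ∧
    (4 ≤ n → ForGeneral fun P => ∀ C : MvPolynomial (Fin 3) ℂ, Curve P C d w →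
      Independent P d w ∨ ∃ (d1 : ℕ) (w1 : Fin n → ℕ),
        Relation.ReflTransGen Quadratic (d, w) (d1, w1) ∧ Standard d1 w1 ∧ Special P d1 w1 ∧
        dimL P d1 w1 = dimL P d w ∧ ¬ Reached N0 d1 w1) := by
  obtain ⟨N0, hN0⟩ := Pool.Agent.Y939.NC.reg_exp
  refine ⟨N0, fun n d w => ⟨reached_of_base, fun h => ?_, fun hn => ?_⟩⟩
  · obtain ⟨F, hF, hF'⟩ := Pool.Agent.TH442.NF.to_open (d := d) (w := w)
      fun {K} _ _ P hP => h.elim (fun h => reached_exp hN0 h hP)
        fun h => covered_exp hN0 h.1 h.2 hP
    refine ⟨F.map (algebraMap ℚ ℂ), H932R3.map_ne_zero_of hF, fun P hP G hG hGd hGm => ?_⟩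
    rw [MvPolynomial.eval_map] at hP
    have h3 := hF' (L := ℂ) P hP
    unfold fat at hGm
    rw [Ideal.mem_iInf] at hGm
    exact h3.eff hG hGd hGm
  · obtain ⟨F, hF, hF'⟩ := prime_general hN0 hn d w
    refine ⟨F, hF, fun P hP C hC => ?_⟩
    by_cases h : dimL P d w = virtdim d w
    · left
      have e2 : ∑ i, ((w i + 1).choose 2 : ℤ) = ((∑ i, Nat.choose (w i + 1) 2 : ℕ) : ℤ) := by
        push_cast
        rfl
      have e1 : (Module.finrank ℂ ↥(sys P d w) : ℤ) - 1 =
          ((d + 2).choose 2 : ℤ) - 1 - ∑ i, ((w i + 1).choose 2 : ℤ) := h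
      rw [e2] at e1
      show Module.finrank ℂ ↥(sys P d w) + ∑ i, Nat.choose (w i + 1) 2 = Nat.choose (d + 2) 2
      omega
    · right
      exact hF' P hP C hC h

end Pool.Agent.Results.MP_6ec8e4_ag.CollisionClosure
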